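import Pool.Agent.Q297.MdsMain

/-!
The Poisson limit for the probability that a random linear code is MDS.
-/

namespace Pool.Agent.Results.MP_498a73_pr.PoissonMDS

open Filter Topology Pool.Agent.Q297.Mds

theorem result (lam : ℝ) (hlam : 0 < lam) (F : ℕ → Type) [∀ j, Field (F j)]
    [∀ j, Fintype (F j)] (n k : ℕ → ℕ) (hk : ∀ j, 1 ≤ k j) (hkn : ∀ j, k j ≤ n j)
    (hn : Tendsto n atTop atTop) (hq : Tendsto (fun j => Fintype.card (F j)) atTop atTop)
    (hlim : Tendsto (fun j => ((n j).choose (k j) : ℝ) / (Fintype.card (F j) : ℝ))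
      atTop (𝓝 lam)) :
    Tendsto (fun j => mdsProb (F j) (n j) (k j)) atTop (𝓝 (Real.exp (-lam))) :=
  mds_limit lam hlam F n k hk hkn hn hq hlim

end Pool.Agent.Results.MP_498a73_pr.PoissonMDS
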